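import Pool.Agent.H97.Bs1

namespace Pool.Agent.Results.MP_c084cb_lc.OneCopy

open Pool.Agent.H97.Bs

/-- The weights `w(x,y)`. -/
noncomputable def w (a : ℝ) (x y : Fin 4) : ℝ :=
  if x.val < 2 ∧ y.val < 2 then 1 / 8
  else if 2 ≤ x.val ∧ 2 ≤ y.val then (if x = y then 1 / 4 else 0) else a

/-- Eve's variable `Z` as a function of `(X, Y)`. -/
def zf (x y : Fin 4) : Fin 2 ⊕ (Fin 4 × Fin 4) :=
  if x.val < 2 ∧ y.val < 2 then Sum.inl ⟨(x.val + y.val) % 2, Nat.mod_lt _ two_pos⟩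
  else if 2 ≤ x.val ∧ 2 ≤ y.val then Sum.inl ⟨x.val % 2, Nat.mod_lt _ two_pos⟩ else Sum.inr (x, y)

/-- Markov kernels between finite sets. -/
def Stoch {S T : Type} [Fintype T] (K : S → T → ℝ) : Prop :=
  (∀ s t, 0 ≤ K s t) ∧ ∀ s, ∑ t, K s t = 1

/-- `P(Xbar = i, Ybar = j, Zbar = o)`. -/
noncomputable def joint {O : Type} (a : ℝ) (f g : Fin 4 → Fin 2 → ℝ)
    (K : Fin 2 ⊕ (Fin 4 × Fin 4) → O → ℝ) (i j : Fin 2) (o : O) : ℝ :=
  ∑ x, ∑ y, w a x y / (1 + 8 * a) * f x i * g y j * K (zf x y) o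

/-- Conditional independence given each value of positive probability. -/
def CondIndep {O : Type} (P : Fin 2 → Fin 2 → O → ℝ) : Prop :=
  ∀ o, 0 < ∑ i, ∑ j, P i j o → ∀ i j,
    P i j o / (∑ i, ∑ j, P i j o) =
      (∑ j', P i j' o) / (∑ i, ∑ j, P i j o) * ((∑ i', P i' j o) / (∑ i, ∑ j, P i j o))

def av (x y : Fin 4) : Prop := (x.val < 2 ∧ 2 ≤ y.val) ∨ (2 ≤ x.val ∧ y.val < 2)

instance (x y : Fin 4) : Decidable (av x y) := by unfold av; infer_instance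

def Det (c : Fin 4 → Fin 4 → ℝ) (p q : Fin 4 → ℝ) : Prop :=
  (∑ x, ∑ y, c x y) * (∑ x, ∑ y, c x y * (p x * q y)) =
    (∑ x, ∑ y, c x y * p x) * (∑ x, ∑ y, c x y * q y)

noncomputable def M (t0 t1 : ℝ) (x y : Fin 4) : ℝ :=
  !![t0 / 8, t1 / 8, 0, 0; t1 / 8, t0 / 8, 0, 0; 0, 0, t0 / 4, 0; 0, 0, 0, t1 / 4] x y

lemma idx (p q : Fin 4 → ℝ) (u v a2 a3 b2 b3 a b : ℝ) (h : Av u v a2 a3 b2 b3 a b)
    (hu : u = (p 1 - p 0) / 2 ∨ u = -((p 1 - p 0) / 2)) (hv : v = (q 1 - q 0) / 2)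
    (h2 : a2 = p 2 - (p 0 + p 1) / 2 ∨ a2 = p 3 - (p 0 + p 1) / 2)
    (h3 : a3 = p 2 - (p 0 + p 1) / 2 ∨ a3 = p 3 - (p 0 + p 1) / 2)
    (k2 : b2 = q 2 - (q 0 + q 1) / 2 ∨ b2 = q 3 - (q 0 + q 1) / 2)
    (k3 : b3 = q 2 - (q 0 + q 1) / 2 ∨ b3 = q 3 - (q 0 + q 1) / 2) :
    ∃ x y, av x y ∧ a = p x - (p 0 + p 1) / 2 ∧ b = q y - (q 0 + q 1) / 2 := by
  rcases h with ⟨h, k⟩ | ⟨h, k⟩
  · have e1 : ∃ x : Fin 4, x.val < 2 ∧ a = p x - (p 0 + p 1) / 2 := by
      rcases h with h | h <;> rcases hu with hu | hu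
      exacts [⟨1, by decide, by linarith⟩, ⟨0, by decide, by linarith⟩,
        ⟨0, by decide, by linarith⟩, ⟨1, by decide, by linarith⟩]
    have e2 : ∃ y : Fin 4, 2 ≤ y.val ∧ b = q y - (q 0 + q 1) / 2 := by
      rcases k with k | k
      · rcases k2 with k2 | k2
        exacts [⟨2, by decide, by linarith⟩, ⟨3, by decide, by linarith⟩]
      · rcases k3 with k2 | k2
        exacts [⟨2, by decide, by linarith⟩, ⟨3, by decide, by linarith⟩]
    obtain ⟨x, hx, e1⟩ := e1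
    obtain ⟨y, hy, e2⟩ := e2
    exact ⟨x, y, Or.inl ⟨hx, hy⟩, e1, e2⟩
  · have e1 : ∃ x : Fin 4, 2 ≤ x.val ∧ a = p x - (p 0 + p 1) / 2 := by
      rcases h with k | k
      · rcases h2 with k2 | k2
        exacts [⟨2, by decide, by linarith⟩, ⟨3, by decide, by linarith⟩]
      · rcases h3 with k2 | k2
        exacts [⟨2, by decide, by linarith⟩, ⟨3, by decide, by linarith⟩]
    have e2 : ∃ y : Fin 4, y.val < 2 ∧ b = q y - (q 0 + q 1) / 2 := by
      rcases k with k | k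
      exacts [⟨1, by decide, by linarith⟩, ⟨0, by decide, by linarith⟩]
    obtain ⟨x, hx, e1⟩ := e1
    obtain ⟨y, hy, e2⟩ := e2
    exact ⟨x, y, Or.inr ⟨hx, hy⟩, e1, e2⟩

def Fix (t0 t1 : ℝ) (p q : Fin 4 → ℝ) : Prop :=
  ∃ r : Fin 4 → Fin 4 → ℝ, (∀ x y, 0 ≤ r x y ∧ r x y ≤ 200) ∧ (∀ x y, ¬av x y → r x y = 0) ∧
    Det (fun x y => M t0 t1 x y + r x y) p q

lemma toFix (t0 t1 : ℝ) (p q : Fin 4 → ℝ) (x1 y1 x2 y2 : Fin 4) (h1 : av x1 y1) (h2 : av x2 y2)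
    (τ : ℝ) (a0 : 0 ≤ τ) (a1 : τ ≤ 100)
    (e : Eqn ((t0 + t1) / 2)
      (t0 * (((p 1 - p 0) / 2 * ((q 1 - q 0) / 2) +
          (p 2 - (p 0 + p 1) / 2) * (q 2 - (q 0 + q 1) / 2)) / 4) +
        t1 * ((-((p 1 - p 0) / 2) * ((q 1 - q 0) / 2) +
          (p 3 - (p 0 + p 1) / 2) * (q 3 - (q 0 + q 1) / 2)) / 4))
      (t0 * ((p 2 - (p 0 + p 1) / 2) / 4) + t1 * ((p 3 - (p 0 + p 1) / 2) / 4))
      (t0 * ((q 2 - (q 0 + q 1) / 2) / 4) + t1 * ((q 3 - (q 0 + q 1) / 2) / 4))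
      (p x1 - (p 0 + p 1) / 2) (q y1 - (q 0 + q 1) / 2)
      (p x2 - (p 0 + p 1) / 2) (q y2 - (q 0 + q 1) / 2) τ) : Fix t0 t1 p q := by
  refine ⟨fun x y => (if y = y1 then (if x = x1 then τ else 0) else 0) +
    (if y = y2 then (if x = x2 then τ else 0) else 0), fun x y => ?_, fun x y h => ?_, ?_⟩
  · beta_reduce
    constructor <;> (split_ifs <;> linarith)
  · beta_reduce
    split_ifs with a b c d <;> simp_all
  · have key : ∀ F : Fin 4 → Fin 4 → ℝ, ∑ x, ∑ y, (M t0 t1 x y +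
        ((if y = y1 then (if x = x1 then τ else 0) else 0) +
          (if y = y2 then (if x = x2 then τ else 0) else 0))) * F x y =
        t0 / 8 * (F 0 0 + F 1 1) + t1 / 8 * (F 0 1 + F 1 0) + t0 / 4 * F 2 2 + t1 / 4 * F 3 3 +
          τ * F x1 y1 + τ * F x2 y2 := by
      intro F
      simp only [add_mul, Finset.sum_add_distrib, ite_mul, zero_mul, Finset.sum_ite_eq',
        Finset.mem_univ, if_true]
      simp [M, Fin.sum_univ_four]
      ring
    have k0 := key fun _ _ => 1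
    simp only [mul_one] at k0
    unfold Det
    rw [k0, key fun x y => p x * q y, key fun x _ => p x, key fun _ y => q y]
    unfold Eqn at e
    linear_combination e

lemma fixes (p q : Fin 4 → ℝ) : ∃ t : ℝ, 0 ≤ t ∧ t ≤ 1 ∧ Fix 1 t p q ∧ Fix 0 (1 - t) p q := by
  rcases core ((p 1 - p 0) / 2) ((q 1 - q 0) / 2) (p 2 - (p 0 + p 1) / 2) (p 3 - (p 0 + p 1) / 2)
    (q 2 - (q 0 + q 1) / 2) (q 3 - (q 0 + q 1) / 2) with h | ⟨h, h'⟩
  · obtain ⟨a, b, c, d, τ, h1, h2, t0, t1, e⟩ := h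
    obtain ⟨x1, y1, g1, rfl, rfl⟩ := idx p q _ _ _ _ _ _ _ _ h1 (Or.inl rfl) rfl (Or.inl rfl)
      (Or.inr rfl) (Or.inl rfl) (Or.inr rfl)
    obtain ⟨x2, y2, g2, rfl, rfl⟩ := idx p q _ _ _ _ _ _ _ _ h2 (Or.inl rfl) rfl (Or.inl rfl)
      (Or.inr rfl) (Or.inl rfl) (Or.inr rfl)
    refine ⟨1, zero_le_one, le_rfl, toFix _ _ p q x1 y1 x2 y2 g1 g2 τ t0 t1 ?_,
      toFix _ _ p q x1 y1 x2 y2 g1 g2 0 le_rfl (by norm_num) ?_⟩
    · unfold Eqn at *
      linear_combination e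
    · unfold Eqn
      ring
  · obtain ⟨a, b, c, d, τ, h1, h2, t0, t1, e⟩ := h
    obtain ⟨x1, y1, g1, rfl, rfl⟩ := idx p q _ _ _ _ _ _ _ _ h1 (Or.inl rfl) rfl (Or.inl rfl)
      (Or.inr rfl) (Or.inl rfl) (Or.inr rfl)
    obtain ⟨x2, y2, g2, rfl, rfl⟩ := idx p q _ _ _ _ _ _ _ _ h2 (Or.inl rfl) rfl (Or.inl rfl)
      (Or.inr rfl) (Or.inl rfl) (Or.inr rfl)
    obtain ⟨a, b, c, d, τ', h1, h2, s0, s1, e'⟩ := h'
    obtain ⟨x3, y3, g3, rfl, rfl⟩ := idx p q _ _ _ _ _ _ _ _ h1 (Or.inr rfl) rfl (Or.inr rfl)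
      (Or.inl rfl) (Or.inr rfl) (Or.inl rfl)
    obtain ⟨x4, y4, g4, rfl, rfl⟩ := idx p q _ _ _ _ _ _ _ _ h2 (Or.inr rfl) rfl (Or.inr rfl)
      (Or.inl rfl) (Or.inr rfl) (Or.inl rfl)
    refine ⟨0, le_rfl, zero_le_one, toFix _ _ p q x1 y1 x2 y2 g1 g2 τ t0 t1 ?_,
      toFix _ _ p q x3 y3 x4 y4 g3 g4 τ' s0 s1 ?_⟩
    · unfold Eqn at *
      linear_combination e
    · unfold Eqn at *
      linear_combination e'

lemma ci {O : Type} (a : ℝ) (f g : Fin 4 → Fin 2 → ℝ) (hf : Stoch f) (hg : Stoch g)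
    (K : Fin 2 ⊕ (Fin 4 × Fin 4) → O → ℝ)
    (h : ∀ o, Det (fun x y => w a x y * K (zf x y) o) (fun x => f x 1) (fun y => g y 1)) :
    CondIndep (joint a f g K) := by
  intro o ho i j
  have f0 : ∀ x, f x 0 = 1 - f x 1 := fun x => by
    have := hf.2 x
    rw [Fin.sum_univ_two] at this
    linarith
  have g0 : ∀ x, g x 0 = 1 - g x 1 := fun x => by
    have := hg.2 x
    rw [Fin.sum_univ_two] at this
    linarith
  have h1 := h o
  unfold Det at h1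
  set T := ∑ x, ∑ y, w a x y * K (zf x y) o with hT
  set A := ∑ x, ∑ y, w a x y * K (zf x y) o * (f x 1 * g y 1) with hA
  set B := ∑ x, ∑ y, w a x y * K (zf x y) o * f x 1 with hB
  set C := ∑ x, ∑ y, w a x y * K (zf x y) o * g y 1 with hC
  have key : ∀ (i j : Fin 2) (α β γ δ : ℝ), (∀ x y, f x i * g y j =
      α + β * f x 1 + γ * g y 1 + δ * (f x 1 * g y 1)) →
      joint a f g K i j o = (1 + 8 * a)⁻¹ * (α * T + β * B + γ * C + δ * A) := by
    intro i j α β γ δ e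
    simp only [joint, hT, hA, hB, hC, Finset.mul_sum, ← Finset.sum_add_distrib]
    refine Finset.sum_congr rfl fun x _ => Finset.sum_congr rfl fun y _ => ?_
    rw [div_eq_mul_inv]
    linear_combination (w a x y * (1 + 8 * a)⁻¹ * K (zf x y) o) * e x y
  have j00 := key 0 0 1 (-1) (-1) 1 fun x y => by rw [f0, g0]; ring
  have j01 := key 0 1 0 0 1 (-1) fun x y => by rw [f0]; ring
  have j10 := key 1 0 0 1 0 (-1) fun x y => by rw [g0]; ring
  have j11 := key 1 1 0 0 0 1 fun x y => by ring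
  rw [div_mul_div_comm, div_eq_div_iff ho.ne' (mul_pos ho ho).ne', ← mul_assoc]
  congr 1
  fin_cases i <;> fin_cases j <;>
    simp only [Fin.sum_univ_two, Fin.zero_eta, Fin.mk_one, Fin.isValue, j00, j01, j10, j11]
  · linear_combination (1 + 8 * a)⁻¹ ^ 2 * h1
  · linear_combination -(1 + 8 * a)⁻¹ ^ 2 * h1
  · linear_combination -(1 + 8 * a)⁻¹ ^ 2 * h1
  · linear_combination (1 + 8 * a)⁻¹ ^ 2 * h1

noncomputable def chan (a t : ℝ) (r s : Fin 4 → Fin 4 → ℝ) :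
    Fin 2 ⊕ (Fin 4 × Fin 4) → Fin 2 ⊕ (Fin 4 × Fin 4) → ℝ
  | Sum.inl z, Sum.inl o => !![1, 0; t, 1 - t] z o
  | Sum.inl _, Sum.inr _ => 0
  | Sum.inr z, Sum.inl o => ![r z.1 z.2 / a, s z.1 z.2 / a] o
  | Sum.inr z, Sum.inr o => if o = z then 1 - (r z.1 z.2 + s z.1 z.2) / a else 0

theorem result (a : ℝ) (ha : 400 ≤ a) (f g : Fin 4 → Fin 2 → ℝ) (hf : Stoch f) (hg : Stoch g) :
    ∃ (O : Type) (_ : Fintype O) (K : Fin 2 ⊕ (Fin 4 × Fin 4) → O → ℝ),
      Stoch K ∧ CondIndep (joint a f g K) := by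
  obtain ⟨t, t0, t1, ⟨r, r1, r2, r3⟩, ⟨s, s1, s2, s3⟩⟩ := fixes (fun x => f x 1) (fun y => g y 1)
  have a0 : 0 < a := by linarith
  refine ⟨Fin 2 ⊕ (Fin 4 × Fin 4), inferInstance, chan a t r s, ⟨?_, ?_⟩, ci a f g hf hg _ ?_⟩
  · rintro (z | z) (o | o)
    · fin_cases z <;> fin_cases o <;> simp [chan, t0, t1]
    · simp [chan]
    · have := (r1 z.1 z.2).1
      have := (s1 z.1 z.2).1
      fin_cases o <;> simp [chan] <;> positivity
    · simp only [chan]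
      split_ifs
      · have := (r1 z.1 z.2).2
        have := (s1 z.1 z.2).2
        rw [sub_nonneg, div_le_one a0]
        linarith
      · exact le_rfl
  · rintro (z | z)
    · fin_cases z <;> simp [chan, Fintype.sum_sum_type]
    · simp [chan, Fintype.sum_sum_type]
      ring
  · rintro (o | o)
    · have e0 : (fun x y => w a x y * chan a t r s (zf x y) (Sum.inl 0)) =
          fun x y => M 1 t x y + r x y := by
        funext x y
        have := r2 x y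
        fin_cases x <;> fin_cases y <;> simp [av] at this <;> simp [w, zf, chan, M, this] <;>
          field_simp
      have e1 : (fun x y => w a x y * chan a t r s (zf x y) (Sum.inl 1)) =
          fun x y => M 0 (1 - t) x y + s x y := by
        funext x y
        have := s2 x y
        fin_cases x <;> fin_cases y <;> simp [av] at this <;> simp [w, zf, chan, M, this] <;>
          field_simp
      fin_cases o
      · exact e0 ▸ r3
      · exact e1 ▸ s3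
    · obtain ⟨m, hm⟩ : ∃ m : ℝ, (fun x y => w a x y * chan a t r s (zf x y) (Sum.inr o)) =
          fun x y => if y = o.2 then (if x = o.1 then m else 0) else 0 := by
        refine ⟨w a o.1 o.2 * chan a t r s (zf o.1 o.2) (Sum.inr o), ?_⟩
        funext x y
        by_cases h : (x, y) = o
        · subst h
          simp
        · have h0 : chan a t r s (zf x y) (Sum.inr o) = 0 := by
            unfold zf
            split_ifs <;> simp [chan, Ne.symm h]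
          rw [h0, mul_zero]
          split_ifs with c d
          · exact absurd (Prod.ext d c) h
          · rfl
          · rfl
      rw [hm]
      unfold Det
      simp only [ite_mul, zero_mul, Finset.sum_ite_eq', Finset.mem_univ, if_true]
      ring

end Pool.Agent.Results.MP_c084cb_lc.OneCopy
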